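import Mathlib
import Pool.Agent.H902R3.XI.Stmts

open Complex MeasureTheory Filter Topology Set Metric
open scoped Real ENNReal

namespace Pool.Agent.H393R3.XI

open Pool.Agent.H902R3.XI

lemma pow_mul_exp_neg_le (x : ℝ) (hx : 0 ≤ x) (k : ℕ) :
    x ^ k * Real.exp (-x) ≤ k.factorial := by
  have h := Real.pow_div_factorial_le_exp x hx k
  have hf : (0 : ℝ) < k.factorial := by exact_mod_cast k.factorial_pos
  rw [div_le_iff₀ hf] at h
  rw [Real.exp_neg, ← div_eq_mul_inv, div_le_iff₀ (Real.exp_pos x)]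
  linarith

/-- `|phi(u)| ≤ 12 e^{-3u/2}` for all real `u` -/
lemma abs_phi_le (u : ℝ) : |phi u| ≤ 12 * Real.exp (-(3 / 2) * u) := by
  have hpi := Real.pi_gt_three
  have hpi0 := Real.pi_pos
  set x : ℝ := π * Real.exp (2 * u) with hx
  have hx0 : 0 ≤ x := by positivity
  have h3 := pow_mul_exp_neg_le x hx0 3
  have h2 := pow_mul_exp_neg_le x hx0 2
  have e1 : Real.exp (9 * u / 2) = Real.exp (2 * u) ^ 3 * Real.exp (-(3 / 2) * u) := by
    rw [← Real.exp_nat_mul, ← Real.exp_add]; congr 1; push_cast; ring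
  have e2 : Real.exp (5 * u / 2) = Real.exp (2 * u) ^ 2 * Real.exp (-(3 / 2) * u) := by
    rw [← Real.exp_nat_mul, ← Real.exp_add]; congr 1; push_cast; ring
  have h33 : 2 * π ^ 2 * Real.exp (2 * u) ^ 3 * Real.exp (-x) ≤ 4 := by
    have : 2 * π ^ 2 * Real.exp (2 * u) ^ 3 * Real.exp (-x) = 2 / π * (x ^ 3 * Real.exp (-x)) := by
      rw [hx]; field_simp
    rw [this]
    have h4 : 2 / π ≤ 2 / 3 := by
      apply div_le_div_of_nonneg_left <;> linarith
    have h5 : (0 : ℝ) ≤ x ^ 3 * Real.exp (-x) := by positivity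
    have h6 : ((3 : ℕ).factorial : ℝ) = 6 := by norm_num [Nat.factorial]
    rw [h6] at h3
    calc 2 / π * (x ^ 3 * Real.exp (-x)) ≤ 2 / 3 * 6 := by
          apply mul_le_mul h4 h3 h5 (by norm_num)
      _ = 4 := by norm_num
  have h22 : 3 * π * Real.exp (2 * u) ^ 2 * Real.exp (-x) ≤ 2 := by
    have : 3 * π * Real.exp (2 * u) ^ 2 * Real.exp (-x) = 3 / π * (x ^ 2 * Real.exp (-x)) := by
      rw [hx]; field_simp
    rw [this]
    have h4 : 3 / π ≤ 1 := by
      rw [div_le_one hpi0]; linarith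
    have h5 : (0 : ℝ) ≤ x ^ 2 * Real.exp (-x) := by positivity
    have h6 : ((2 : ℕ).factorial : ℝ) = 2 := by norm_num [Nat.factorial]
    rw [h6] at h2
    calc 3 / π * (x ^ 2 * Real.exp (-x)) ≤ 1 * 2 := by
          apply mul_le_mul h4 h2 h5 (by norm_num)
      _ = 2 := by norm_num
  have hphi : phi u = (2 * (2 * π ^ 2 * Real.exp (2 * u) ^ 3 * Real.exp (-x)) -
      2 * (3 * π * Real.exp (2 * u) ^ 2 * Real.exp (-x))) * Real.exp (-(3 / 2) * u) := by
    unfold phi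
    rw [e1, e2, hx]
    have : -π * Real.exp (2 * u) = -(π * Real.exp (2 * u)) := by ring
    rw [this]
    ring
  rw [hphi, abs_mul, abs_of_pos (Real.exp_pos (-(3 / 2) * u))]
  apply mul_le_mul_of_nonneg_right _ (Real.exp_pos _).le
  have p1 : 0 ≤ 2 * π ^ 2 * Real.exp (2 * u) ^ 3 * Real.exp (-x) := by positivity
  have p2 : 0 ≤ 3 * π * Real.exp (2 * u) ^ 2 * Real.exp (-x) := by positivity
  rw [abs_le]
  constructor <;> linarith

lemma continuous_phi : Continuous phi := by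
  unfold phi
  fun_prop

/-- the terms of `Phi` -/
lemma term_eq (n : ℕ) (t : ℝ) :
    Real.exp (-ell n / 2) * phi (t + ell n) =
    2 * ((2 * π ^ 2 * ((n : ℝ) + 1) ^ 4 * Real.exp (9 * t / 2)
    - 3 * π * ((n : ℝ) + 1) ^ 2 * Real.exp (5 * t / 2)) *
      Real.exp (-π * ((n : ℝ) + 1) ^ 2 * Real.exp (2 * t))) := by
  have hn : (0 : ℝ) < (n : ℝ) + 1 := by positivity
  have hl : Real.exp (ell n) = (n : ℝ) + 1 := Real.exp_log hn
  have h2 : Real.exp (2 * (t + ell n)) = ((n : ℝ) + 1) ^ 2 * Real.exp (2 * t) := by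
    rw [← hl, ← Real.exp_nat_mul, ← Real.exp_add]; congr 1; push_cast; ring
  have h9 : Real.exp (-ell n / 2) * Real.exp (9 * (t + ell n) / 2) =
      ((n : ℝ) + 1) ^ 4 * Real.exp (9 * t / 2) := by
    rw [← hl, ← Real.exp_nat_mul, ← Real.exp_add, ← Real.exp_add]; congr 1; push_cast; ring
  have h5 : Real.exp (-ell n / 2) * Real.exp (5 * (t + ell n) / 2) =
      ((n : ℝ) + 1) ^ 2 * Real.exp (5 * t / 2) := by
    rw [← hl, ← Real.exp_nat_mul, ← Real.exp_add, ← Real.exp_add]; congr 1; push_cast; ring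
  unfold phi
  rw [h2]
  have h7 : -π * (((n : ℝ) + 1) ^ 2 * Real.exp (2 * t)) =
    -π * ((n : ℝ) + 1) ^ 2 * Real.exp (2 * t) := by ring
  rw [h7]
  linear_combination (4 * π ^ 2 * Real.exp (-π * ((n : ℝ) + 1) ^ 2 * Real.exp (2 * t))) * h9 -
    (6 * π * Real.exp (-π * ((n : ℝ) + 1) ^ 2 * Real.exp (2 * t))) * h5

lemma Phi_eq (t : ℝ) : Phi t = ∑' n : ℕ, Real.exp (-ell n / 2) * phi (t + ell n) := by
  simp_rw [term_eq]
  rw [tsum_mul_left]
  rfl

lemma abs_term_le (n : ℕ) (t : ℝ) :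
    |Real.exp (-ell n / 2) * phi (t + ell n)| ≤
      12 * ((n : ℝ) + 1) ^ (-(2 : ℝ)) * Real.exp (-(3 / 2) * t) := by
  have hn : (0 : ℝ) < (n : ℝ) + 1 := by positivity
  have hl : Real.exp (ell n) = (n : ℝ) + 1 := Real.exp_log hn
  rw [abs_mul, abs_of_pos (Real.exp_pos _)]
  calc Real.exp (-ell n / 2) * |phi (t + ell n)| ≤
      Real.exp (-ell n / 2) * (12 * Real.exp (-(3 / 2) * (t + ell n))) :=
        mul_le_mul_of_nonneg_left (abs_phi_le _) (Real.exp_pos _).le
    _ = 12 * ((n : ℝ) + 1) ^ (-(2 : ℝ)) * Real.exp (-(3 / 2) * t) := by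
      rw [Real.rpow_def_of_pos hn]
      have : Real.log ((n : ℝ) + 1) = ell n := rfl
      rw [this, mul_comm (Real.exp (-ell n / 2)), mul_assoc, mul_assoc, ← Real.exp_add,
        ← Real.exp_add]
      congr 2; ring

/-- the integrand of `Tm` -/
noncomputable def Fn (τ : ℝ) (s : ℂ) (n : ℕ) (t : ℝ) : ℂ :=
  ((Real.exp (-ell n / 2) * phi (t + ell n) * Real.exp (-τ * t ^ 2) : ℝ) : ℂ) *
    cexp ((s - 1 / 2) * t)

lemma continuous_Fn (τ : ℝ) (s : ℂ) (n : ℕ) : Continuous (Fn τ s n) := by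
  unfold Fn
  have := continuous_phi
  fun_prop

lemma norm_Fn_le (τ : ℝ) (s : ℂ) (n : ℕ) (t : ℝ) :
    ‖Fn τ s n t‖ ≤ ((n : ℝ) + 1) ^ (-(2 : ℝ)) *
      (12 * Real.exp (-τ * t ^ 2 + (s.re - 2) * t)) := by
  unfold Fn
  rw [norm_mul, Complex.norm_real, Real.norm_eq_abs, abs_mul, abs_of_pos (Real.exp_pos (-τ * t ^ 2)),
    Complex.norm_exp]
  have hre : ((s - 1 / 2) * (t : ℂ)).re = (s.re - 1 / 2) * t := by
    simp [Complex.mul_re, Complex.sub_re]
  rw [hre]
  have h := abs_term_le n t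
  calc |Real.exp (-ell n / 2) * phi (t + ell n)| * Real.exp (-τ * t ^ 2) *
        Real.exp ((s.re - 1 / 2) * t) ≤
      (12 * ((n : ℝ) + 1) ^ (-(2 : ℝ)) * Real.exp (-(3 / 2) * t)) * Real.exp (-τ * t ^ 2) *
        Real.exp ((s.re - 1 / 2) * t) := by gcongr
    _ = ((n : ℝ) + 1) ^ (-(2 : ℝ)) * (12 * Real.exp (-τ * t ^ 2 + (s.re - 2) * t)) := by
      have : Real.exp (-τ * t ^ 2 + (s.re - 2) * t) =
        Real.exp (-(3 / 2) * t) * Real.exp (-τ * t ^ 2) * Real.exp ((s.re - 1 / 2) * t) := by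
        rw [← Real.exp_add, ← Real.exp_add]; congr 1; ring
      rw [this]; ring

lemma integrable_gauss (τ : ℝ) (hτ : 0 < τ) (c : ℝ) :
    Integrable (fun t : ℝ => Real.exp (-τ * t ^ 2 + c * t)) := by
  have h := integrable_cexp_quadratic' (b := (-τ : ℂ)) (by simpa using hτ) (c : ℂ) 0
  have h2 := h.norm
  refine h2.congr (Eventually.of_forall fun t => ?_)
  simp only [Complex.norm_exp]
  congr 1
  simp [pow_two, Complex.mul_re]

lemma integrable_Fn (τ : ℝ) (hτ : 0 < τ) (s : ℂ) (n : ℕ) : Integrable (Fn τ s n) := by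
  have hg : Integrable (fun t : ℝ => ((n : ℝ) + 1) ^ (-(2 : ℝ)) *
      (12 * Real.exp (-τ * t ^ 2 + (s.re - 2) * t))) :=
    ((integrable_gauss τ hτ (s.re - 2)).const_mul 12).const_mul _
  exact hg.mono' (continuous_Fn τ s n).aestronglyMeasurable
    (Eventually.of_forall fun t => norm_Fn_le τ s n t)

lemma summable_sq : Summable (fun n : ℕ => ((n : ℝ) + 1) ^ (-(2 : ℝ))) := by
  have h : Summable (fun n : ℕ => (n : ℝ) ^ (-(2 : ℝ))) := by
    rw [Real.summable_nat_rpow]; norm_num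
  have h2 := (summable_nat_add_iff 1).2 h
  refine h2.congr fun n => ?_
  push_cast
  rfl

lemma summable_integral_norm (τ : ℝ) (hτ : 0 < τ) (s : ℂ) :
    Summable (fun n => ∫ t, ‖Fn τ s n t‖) := by
  have hs := summable_sq.mul_right (∫ t : ℝ, 12 * Real.exp (-τ * t ^ 2 + (s.re - 2) * t))
  refine Summable.of_nonneg_of_le (fun n => integral_nonneg fun t => norm_nonneg _) (fun n => ?_) hs
  rw [← integral_const_mul]
  exact integral_mono (integrable_Fn τ hτ s n).norm
    (((integrable_gauss τ hτ (s.re - 2)).const_mul 12).const_mul _)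
    (fun t => norm_Fn_le τ s n t)

theorem taskA1 : TaskA1 := by
  intro τ hτ s
  have hT : ∀ n, Tm τ n s = ∫ t, Fn τ s n t := fun n => rfl
  have hsn := summable_integral_norm τ hτ s
  refine ⟨?_, ?_⟩
  · refine Summable.of_nonneg_of_le (fun n => norm_nonneg _) (fun n => ?_) hsn
    rw [hT]
    exact norm_integral_le_integral_norm _
  · have h := hasSum_integral_of_summable_integral_norm (fun n => integrable_Fn τ hτ s n) hsn
    have h2 := h.tsum_eq
    simp_rw [hT]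
    rw [h2]
    unfold X
    congr 1
    ext t
    have h3 : ∀ n, Fn τ s n t = ((Real.exp (-ell n / 2) * phi (t + ell n) : ℝ) : ℂ) *
        (((Real.exp (-τ * t ^ 2) : ℝ) : ℂ) * cexp ((s - 1 / 2) * t)) := by
      intro n
      unfold Fn
      push_cast
      ring
    simp_rw [h3]
    rw [tsum_mul_right, ← Complex.ofReal_tsum, ← Phi_eq]
    push_cast
    ring

/-- the series of `Phi` converges absolutely -/
lemma summable_terms (t : ℝ) : Summable (fun n : ℕ => |Real.exp (-ell n / 2) * phi (t + ell n)|) := by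
  refine Summable.of_nonneg_of_le (fun n => abs_nonneg _) (fun n => abs_term_le n t) ?_
  exact (summable_sq.mul_left 12).mul_right _

/-- `|Phi t| ≤ C e^{-3t/2}` -/
lemma abs_Phi_le : ∃ C : ℝ, 0 < C ∧ ∀ t : ℝ, |Phi t| ≤ C * Real.exp (-(3 / 2) * t) := by
  refine ⟨12 * ∑' n : ℕ, ((n : ℝ) + 1) ^ (-(2 : ℝ)), ?_, fun t => ?_⟩
  · have : 0 < ∑' n : ℕ, ((n : ℝ) + 1) ^ (-(2 : ℝ)) :=
      summable_sq.tsum_pos (fun n => by positivity) 0 (by positivity)
    positivity
  · rw [Phi_eq]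
    have h1 := summable_terms t
    have h2 : |∑' n : ℕ, Real.exp (-ell n / 2) * phi (t + ell n)| ≤
        ∑' n : ℕ, |Real.exp (-ell n / 2) * phi (t + ell n)| := by
      have := norm_tsum_le_tsum_norm (f := fun n : ℕ => Real.exp (-ell n / 2) * phi (t + ell n))
        (by simpa [Real.norm_eq_abs] using h1)
      simpa [Real.norm_eq_abs] using this
    refine h2.trans ?_
    have h3 := h1.tsum_le_tsum (fun n => abs_term_le n t) ((summable_sq.mul_left 12).mul_right _)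
    refine h3.trans (le_of_eq ?_)
    rw [tsum_mul_right, tsum_mul_left]

end Pool.Agent.H393R3.XI
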